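import Pool.Agent.Lib.helper22.CXReach
import Pool.Agent.H.MP_5d9c5f_lc.A

namespace Pool.Agent.Results.MP_5d9c5f_lc.InP
open Pool.Agent.Lib.CX Pool.Agent.H.MP_5d9c5f_lc Finset

/-- mixed graph (arcs, undirected edges) and the vertices s1, t1, s2, t2 -/
abbrev Inst := List (ℕ × ℕ) × List (ℕ × ℕ) × ℕ × ℕ × ℕ × ℕ

def orient (E : List (ℕ × ℕ)) (o : List Bool) : List (ℕ × ℕ) :=
  List.zipWith (fun e b => if b then e else (e.2, e.1)) E o

def Walk (L : List (ℕ × ℕ)) : ℕ → List (Fin L.length) → ℕ → Prop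
  | s, [], t => s = t
  | s, i :: p, t => L[i].1 = s ∧ Walk L L[i].2 p t

def IsPath (L : List (ℕ × ℕ)) (s : ℕ) (p : List (Fin L.length)) (t : ℕ) : Prop :=
  Walk L s p t ∧ (s :: p.map fun i => L[i].2).Nodup

def Good (L : List (ℕ × ℕ)) (c : ℕ × ℕ × ℕ × ℕ) : Prop :=
  (∃ q, IsPath L c.1 q c.2.1) ∧ ∃ p p', IsPath L c.2.2.1 p c.2.2.2 ∧ IsPath L c.2.2.1 p' c.2.2.2 ∧ p.Disjoint p'

def Sol (I : Inst) (o : List Bool) : Prop := o.length = I.2.1.length ∧ Good (I.1 ++ orient I.2.1 o) I.2.2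

section bridge
variable {L : List (ℕ × ℕ)} {tl : Dt → ℕ} {v : ℕ → Bool}

theorem suf {u t x : ℕ} {p : List (Fin L.length)} (h : IsPath L u p t) (hx : x ∈ u :: p.map fun i => L[i].2) :
    ∃ p', IsPath L x p' t ∧ p' ⊆ p := by
  induction p generalizing u with
  | nil => obtain rfl : x = u := by simpa using hx
           exact ⟨[], h, fun _ h => h⟩
  | cons i p ih =>
    rcases List.mem_cons.1 hx with rfl | hx
    · exact ⟨_, h, fun _ h => h⟩
    · obtain ⟨p', a, b⟩ := ih ⟨h.1.2, (List.nodup_cons.1 h.2).2⟩ hx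
      exact ⟨p', a, fun _ h => List.mem_cons_of_mem _ (b h)⟩

theorem walk_sum (hL : ∀ i : Fin L.length, L[i] = (tl (i, v i), tl (rv (i, v i)))) {s t : ℕ} {p : List (Fin L.length)}
    (h : Walk L s p t) (T : Set ℕ) :
    (p.map fun i : Fin L.length => ind T (tl (i, v i)) - ind T (tl (rv (i, v i)))).sum = ind T s - ind T t := by
  induction p generalizing s with
  | nil => simp [show s = t from h]
  | cons i p ih =>
    rw [List.map_cons, List.sum_cons, ih h.2, ← h.1, hL i]; ring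

theorem walk_out (hL : ∀ i : Fin L.length, L[i] = (tl (i, v i), tl (rv (i, v i)))) {s t : ℕ} {p : List (Fin L.length)}
    (h : Walk L s p t) {T : Set ℕ} (hs : s ∈ T) (ht : t ∉ T) : ∃ i ∈ p, out tl T (i, v i) := by
  induction p generalizing s with
  | nil => exact (ht (h ▸ hs)).elim
  | cons i p ih =>
    by_cases h1 : L[i].2 ∈ T
    · obtain ⟨j, a, b⟩ := ih h.2 h1
      exact ⟨j, List.mem_cons_of_mem _ a, b⟩
    · rw [← h.1, hL i] at hs; rw [hL i] at h1
      exact ⟨i, List.mem_cons_self, hs, h1⟩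

theorem extract (hL : ∀ i : Fin L.length, L[i] = (tl (i, v i), tl (rv (i, v i)))) {S : Finset Dt}
    (hS : ∀ d ∈ S, ∃ i : Fin L.length, d = (i.1, v i)) {s t k : ℕ} (h : Flow tl S s t (k + 1)) :
    ∃ p, IsPath L s p t ∧ (∀ i ∈ p, (i.1, v i) ∈ S) ∧ ∃ S' ⊆ S, Flow tl S' s t k ∧ ∀ i ∈ p, (i.1, v i) ∉ S' := by
  have : ∃ p, IsPath L s p t ∧ ∀ i ∈ p, (i.1, v i) ∈ S := by
    by_contra hh
    classical
    obtain ⟨d, hd⟩ := card_pos.1 (lt_of_lt_of_le (Nat.succ_pos _)
      (h.conn {u | ¬∃ p, IsPath L u p t ∧ ∀ i ∈ p, (i.1, v i) ∈ S} hh fun h => h ⟨[], ⟨rfl, by simp⟩, by simp⟩))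
    rw [mem_filter] at hd
    obtain ⟨i, rfl⟩ := hS d hd.1
    obtain ⟨p, h1, h2⟩ := not_not.1 hd.2.2
    apply hd.2.1
    by_cases hx : tl (i, v i) ∈ tl (rv (i, v i)) :: p.map fun i => L[i].2
    · obtain ⟨p', a, b⟩ := suf h1 hx
      exact ⟨p', a, fun j hj => h2 j (b hj)⟩
    · refine ⟨i :: p, ⟨⟨by rw [hL i], by rw [hL i]; exact h1.1⟩, ?_⟩, ?_⟩
      · rw [List.map_cons, hL i]; exact List.nodup_cons.2 ⟨hx, h1.2⟩
      · intro j hj; rcases List.mem_cons.1 hj with rfl | hj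
        exacts [hd.1, h2 j hj]
  obtain ⟨p, h1, h2⟩ := this
  have nd : (p.map fun i : Fin L.length => ((i.1, v i) : Dt)).Nodup :=
    (List.Nodup.of_map _ (List.nodup_cons.1 h1.2).2).map fun a b h => Fin.ext (congrArg Prod.fst h)
  have sb : (p.map fun i : Fin L.length => ((i.1, v i) : Dt)).toFinset ⊆ S := fun d hd => by
    obtain ⟨i, a, rfl⟩ := List.mem_map.1 (List.mem_toFinset.1 hd); exact h2 i a
  refine ⟨p, h1, h2, _, sdiff_subset (t := (p.map fun i : Fin L.length => ((i.1, v i) : Dt)).toFinset), fun T => ?_,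
    fun i hi h => (mem_sdiff.1 h).2 (List.mem_toFinset.2 (List.mem_map.2 ⟨i, hi, rfl⟩))⟩
  have e := h T
  rw [H.MP_5d9c5f_lc.val, ← sum_sdiff sb, List.sum_toFinset _ nd, List.map_map] at e
  have := walk_sum hL h1.1 T
  simp only [Function.comp_def] at e
  rw [this] at e
  rw [H.MP_5d9c5f_lc.val]; push_cast at e; linarith

theorem bridge (hL : ∀ i : Fin L.length, L[i] = (tl (i, v i), tl (rv (i, v i)))) {Y : Finset Dt}
    (hY : ∀ d, d ∈ Y ↔ ∃ i : Fin L.length, d = (i.1, v i)) (c : ℕ × ℕ × ℕ × ℕ) :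
    Good L c ↔ Conn tl Y c.1 c.2.1 1 ∧ Conn tl Y c.2.2.1 c.2.2.2 2 := by
  classical
  refine and_congr ⟨fun ⟨q, hq⟩ T h1 h2 => ?_, fun h => ?_⟩ ⟨fun ⟨p, p', a, b, c⟩ T h1 h2 => ?_, fun h => ?_⟩
  · obtain ⟨i, _, b⟩ := walk_out hL hq.1 h1 h2
    exact card_pos.2 ⟨_, mem_filter.2 ⟨(hY _).2 ⟨i, rfl⟩, b⟩⟩
  · obtain ⟨S, a, b, _⟩ := exists_flow h
    obtain ⟨p, h, _⟩ := extract hL (fun d hd => (hY d).1 (a hd)) b
    exact ⟨p, h⟩
  · obtain ⟨i, i1, i2⟩ := walk_out hL a.1 h1 h2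
    obtain ⟨j, j1, j2⟩ := walk_out hL b.1 h1 h2
    refine one_lt_card.2 ⟨_, mem_filter.2 ⟨(hY _).2 ⟨i, rfl⟩, i2⟩, _, mem_filter.2 ⟨(hY _).2 ⟨j, rfl⟩, j2⟩, fun h => ?_⟩
    obtain rfl : i = j := Fin.ext (congrArg Prod.fst h)
    exact c i1 j1
  · obtain ⟨S, a, b, _⟩ := exists_flow h
    obtain ⟨p, p1, _, S', s1, s2, s3⟩ := extract hL (fun d hd => (hY d).1 (a hd)) b
    obtain ⟨p', q1, q2, _⟩ := extract hL (fun d hd => (hY d).1 (a (s1 hd))) s2
    exact ⟨p, p', p1, q1, fun i h1 h2 => s3 i h1 (q2 i h2)⟩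
end bridge

def tlM (M : List (ℕ × ℕ)) (d : Dt) : ℕ := if d.2 then (M.getD d.1 (0, 0)).1 else (M.getD d.1 (0, 0)).2
def XL (I : Inst) : List Dt :=
  (List.range (I.1 ++ I.2.1).length ×ˢ [true, false]).filter fun d => d.2 || decide (I.1.length ≤ d.1)
def c1 (p : List (ℕ × ℕ) × List Dt × ℕ × ℕ) : Bool :=
  reachB (p.2.1.map (fun d => (tlM p.1 d, tlM p.1 (d.1, !d.2))), p.2.2.1, p.2.2.2)
def okB (p : List (ℕ × ℕ) × List Dt × ℕ × ℕ × ℕ × ℕ) : Bool :=
  c1 (p.1, p.2.1, p.2.2.1, p.2.2.2.1) && c1 (p.1, p.2.1, p.2.2.2.2.1, p.2.2.2.2.2) &&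
    p.2.1.all fun c => c1 (p.1, p.2.1.filter (fun d => decide (d ≠ c)), p.2.2.2.2.1, p.2.2.2.2.2)
def dec (I : Inst) : Bool :=
  okB (I.1 ++ I.2.1, XL I, I.2.2) && sat2B (((XL I ×ˢ XL I).filter fun p =>
    !okB (I.1 ++ I.2.1, (XL I).filter (fun d => decide (d ≠ p.1 ∧ d ≠ p.2)), I.2.2)).map
      fun p => ((p.1.1, !p.1.2), (p.2.1, !p.2.2)))

theorem c1_iff (M : List (ℕ × ℕ)) (Y : List Dt) (s t : ℕ) : c1 (M, Y, s, t) = true ↔ Conn (tlM M) Y.toFinset s t 1 := by
  classical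
  rw [c1, reachB_iff]
  dsimp only
  constructor
  · intro h T h1 h2
    induction h with
    | refl => exact (h2 h1).elim
    | @tail b c _ e ih =>
      by_cases hb : b ∈ T
      · obtain ⟨d, hd, e⟩ := List.mem_map.1 e
        obtain ⟨rfl, rfl⟩ := Prod.mk.inj e
        exact card_pos.2 ⟨d, mem_filter.2 ⟨List.mem_toFinset.2 hd, hb, h2⟩⟩
      · exact ih hb
  · intro h
    by_contra hh
    obtain ⟨d, hd⟩ := card_pos.1 (h {u | Relation.ReflTransGen
      (fun a b => (a, b) ∈ Y.map fun d => (tlM M d, tlM M (d.1, !d.2))) s u} .refl hh)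
    rw [mem_filter] at hd
    exact hd.2.2 (Relation.ReflTransGen.tail hd.2.1 (List.mem_map.2 ⟨d, List.mem_toFinset.1 hd.1, rfl⟩))

theorem okB_iff (M : List (ℕ × ℕ)) (Y : List Dt) (c : ℕ × ℕ × ℕ × ℕ) : okB (M, Y, c) = true ↔
    Conn (tlM M) Y.toFinset c.1 c.2.1 1 ∧ Conn (tlM M) Y.toFinset c.2.2.1 c.2.2.2 2 := by
  classical
  simp only [okB, Bool.and_eq_true, List.all_eq_true, c1_iff, and_assoc]
  refine and_congr_right fun _ => ⟨fun ⟨h1, h2⟩ T a b => ?_, fun h => ⟨fun T a b => le_trans (by omega) (h T a b),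
    fun x _ T a b => ?_⟩⟩
  · obtain ⟨d, hd⟩ := card_pos.1 (h1 T a b)
    obtain ⟨e, he⟩ := card_pos.1 (h2 d (by simpa using (mem_filter.1 hd).1) T a b)
    simp only [mem_filter, List.mem_toFinset, List.mem_filter, decide_eq_true_eq] at he
    exact one_lt_card.2 ⟨e, mem_filter.2 ⟨List.mem_toFinset.2 he.1.1, he.2⟩, d, hd, he.1.2⟩
  · obtain ⟨d, hd, e⟩ := exists_mem_ne (h T a b) x
    refine card_pos.2 ⟨d, ?_⟩
    simp only [mem_filter, List.mem_toFinset, List.mem_filter, decide_eq_true_eq] at hd ⊢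
    exact ⟨⟨hd.1, e⟩, hd.2⟩

theorem mem_XL (I : Inst) (d : Dt) : d ∈ XL I ↔ d.1 < I.1.length + I.2.1.length ∧ (d.2 = true ∨ I.1.length ≤ d.1) := by
  obtain ⟨i, b⟩ := d
  cases b <;> simp [XL, List.mem_product]

open Classical in
theorem sol_iff (I : Inst) (o : List Bool) (ho : o.length = I.2.1.length) (v : ℕ → Bool)
    (h1 : ∀ i < I.1.length, v i = true) (h2 : ∀ j (h : j < o.length), v (I.1.length + j) = o[j]) :
    Sol I o ↔ Conn (tlM (I.1 ++ I.2.1)) ((XL I).toFinset.filter (sel v)) I.2.2.1 I.2.2.2.1 1 ∧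
      Conn (tlM (I.1 ++ I.2.1)) ((XL I).toFinset.filter (sel v)) I.2.2.2.2.1 I.2.2.2.2.2 2 := by
  obtain ⟨A, E, c⟩ := I
  simp only at ho h1 h2 ⊢
  have hl : (A ++ orient E o).length = A.length + E.length := by simp [orient, ho]
  rw [Sol, and_iff_right ho]
  refine bridge (v := v) (fun i => ?_) (fun d => ?_) c
  · obtain ⟨i, hi⟩ := i
    simp only [Fin.getElem_fin, tlM, rv]
    by_cases h : i < A.length
    · simp [h1 i h, List.getElem_append_left h, List.getElem?_append_left h, List.getElem?_eq_getElem h]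
    · obtain ⟨j, rfl⟩ := Nat.exists_eq_add_of_le (not_lt.1 h)
      have hj : j < E.length := by simp only [hl] at hi; omega
      rw [h2 j (ho ▸ hj)]
      cases hb : o[j]'(ho ▸ hj) <;> simp [orient, hb, List.getElem?_append_right, List.getElem?_eq_getElem hj]
  · simp only [mem_filter, List.mem_toFinset, mem_XL, sel]
    constructor
    · rintro ⟨⟨a, _⟩, b⟩
      exact ⟨⟨d.1, by rwa [hl]⟩, Prod.ext rfl b.symm⟩
    · rintro ⟨⟨i, hi⟩, rfl⟩
      refine ⟨⟨by rwa [hl] at hi, ?_⟩, rfl⟩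
      by_cases h : i < A.length
      exacts [Or.inl (h1 i h), Or.inr (not_lt.1 h)]

open Classical in
theorem dec_iff (I : Inst) : dec I = true ↔ ∃ o, Sol I o := by
  have e : (∃ o, Sol I o) ↔ ∃ v, Conn (tlM (I.1 ++ I.2.1)) ((XL I).toFinset.filter (sel v)) I.2.2.1 I.2.2.2.1 1 ∧
      Conn (tlM (I.1 ++ I.2.1)) ((XL I).toFinset.filter (sel v)) I.2.2.2.2.1 I.2.2.2.2.2 2 := by
    constructor
    · rintro ⟨o, ho⟩
      refine ⟨fun i => if i < I.1.length then true else o.getD (i - I.1.length) true,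
        (sol_iff I o ho.1 _ (fun i h => if_pos h) fun j h => ?_).1 ho⟩
      simp [List.getElem?_eq_getElem h]
    · rintro ⟨v, h1, h2⟩
      have sb : (XL I).toFinset.filter (sel v) ⊆
          (XL I).toFinset.filter (sel fun i => if i < I.1.length then true else v i) := fun d hd => by
        simp only [mem_filter, List.mem_toFinset, mem_XL, sel] at hd ⊢
        refine ⟨hd.1, ?_⟩
        split_ifs with h
        · rcases hd.1.2 with h' | h'
          exacts [h'.symm, by omega]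
        · exact hd.2
      refine ⟨(List.range I.2.1.length).map fun j => v (I.1.length + j), (sol_iff I _ (by simp)
        (fun i => if i < I.1.length then true else v i) (fun i h => if_pos h) fun j h => by simp).2
          ⟨h1.mono sb, h2.mono sb⟩⟩
  rw [e, main, dec, Bool.and_eq_true, okB_iff, sat2B_iff, and_assoc]
  refine and_congr_right fun _ => and_congr_right fun _ => exists_congr fun v => ?_
  have e2 : ∀ a b : Dt, ((XL I).filter fun d => decide (d ≠ a ∧ d ≠ b)).toFinset = (XL I).toFinset \ {a, b} :=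
    fun a b => by ext d; simp
  have e3 : ∀ a : Dt, v a.1 = (!a.2) ↔ ¬sel v a := fun a => sel_rv v a
  simp only [List.forall_mem_map, List.mem_filter, Bool.not_eq_true', and_imp, ← Bool.not_eq_true, okB_iff, e2, e3,
    List.mem_toFinset, Prod.forall (β := Dt), List.mem_product]
  constructor
  · intro h a ha b hb x y
    by_contra hh
    exact h a b ha hb hh ⟨x, y⟩
  · intro h a b ha hb hh ⟨x, y⟩
    exact hh (h a ha b hb x y)

theorem PT_c1 : PT c1 := by unfold c1 tlM; fun_prop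
@[fun_prop] theorem PT_c1' {α : Type} [Enc α] {f : α → _} (hf : PT f) : PT fun a => c1 (f a) := PT_c1.comp hf
theorem PT_okB : PT okB := by unfold okB; fun_prop
@[fun_prop] theorem PT_okB' {α : Type} [Enc α] {f : α → _} (hf : PT f) : PT fun a => okB (f a) := PT_okB.comp hf
theorem PT_XL : PT XL := by unfold XL; fun_prop
@[fun_prop] theorem PT_XL' {α : Type} [Enc α] {f : α → _} (hf : PT f) : PT fun a => XL (f a) := PT_XL.comp hf
theorem PT_dec : PT dec := by unfold dec; fun_prop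
@[fun_prop] theorem PT_dec' {α : Type} [Enc α] {f : α → _} (hf : PT f) : PT fun a => dec (f a) := PT_dec.comp hf

def stp (I : Inst) (o : List Bool) : List Bool :=
  o ++ [dec (I.1 ++ orient I.2.1 (o ++ [true]), I.2.1.drop (o.length + 1), I.2.2)]

theorem inv (I : Inst) (h : ∃ o, Sol I o) (j : ℕ) (hj : j ≤ I.2.1.length) : ((stp I)^[j] []).length = j ∧
    ∃ o, Sol (I.1 ++ orient I.2.1 ((stp I)^[j] []), I.2.1.drop j, I.2.2) o := by
  induction j with
  | zero => simpa [orient] using h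
  | succ j ih =>
    obtain ⟨h1, o, h2, h3⟩ := ih (by omega)
    rw [Function.iterate_succ_apply']
    generalize (stp I)^[j] [] = w at *
    refine ⟨by simp [stp, h1], ?_⟩
    have e : ∀ b, orient I.2.1 (w ++ [b]) = orient I.2.1 w ++ [if b then I.2.1[j] else (I.2.1[j].2, I.2.1[j].1)] := fun b => by
      apply List.ext_getElem
      · simp [orient]; omega
      · intro i a a'
        simp only [orient, List.getElem_zipWith, List.getElem_append]
        simp [orient] at a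
        by_cases hi : i < j
        · simp [h1, hi, show i < I.2.1.length by omega]
        · obtain rfl : i = j := by omega
          simp [h1]
    rw [List.drop_eq_getElem_cons (show j < I.2.1.length by omega)] at h2 h3
    obtain ⟨b, o, rfl⟩ := List.exists_cons_of_length_eq_add_one h2
    have h4 : Sol (I.1 ++ orient I.2.1 (w ++ [b]), I.2.1.drop (j + 1), I.2.2) o := by
      refine ⟨Nat.succ_injective h2, ?_⟩
      rw [e]
      simp only [orient, List.zipWith_cons_cons, List.append_assoc, List.singleton_append] at h3 ⊢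
      exact h3
    rw [stp, h1]
    cases hd : dec (I.1 ++ orient I.2.1 (w ++ [true]), I.2.1.drop (j + 1), I.2.2)
    · cases b
      · exact ⟨o, h4⟩
      · rw [(dec_iff _).2 ⟨o, h4⟩] at hd; cases hd
    · exact (dec_iff _).1 hd

theorem result : InP (fun I : Inst => ∃ o, Sol I o) ∧
    ∃ f : Inst → List Bool, PT f ∧ ∀ I, (∃ o, Sol I o) → Sol I (f I) := by
  refine ⟨⟨dec, PT_dec, fun I => (dec_iff I).symm⟩, fun I => (stp I)^[I.2.1.length] [], ?_, fun I h => ?_⟩
  · refine PT.iterate (B := fun I => 3 * I.2.1.length + 2) (by unfold stp orient; fun_prop) (by fun_prop) (by fun_prop)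
      (by fun_prop) (by fun_prop) fun I k hk => ?_
    have : ∀ k, ((stp I)^[k] []).length = k := fun k => by
      induction k with
      | zero => rfl
      | succ k ih => rw [Function.iterate_succ_apply']; simp [stp, ih]
    rw [size_bits, this]; omega
  · obtain ⟨h1, o, h2, h3⟩ := inv I h _ le_rfl
    exact ⟨h1, by simpa [orient] using h3⟩

end Pool.Agent.Results.MP_5d9c5f_lc.InP
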